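import Pool.Agent.helper75.NS.Tree
import Pool.Agent.helper75.NS.Move
import Pool.Agent.helper75.NS.Narrow

/-!
# The combinatorial data from the tree property in the full extension
-/

namespace Pool.Agent.helper75.NS

open Cardinal Set Fa

variable {K : Type} [LinearOrder K] [WellFoundedLT K] [Inhabited K]

/-! ### the ordinal `ω` -/

omit [WellFoundedLT K] [Inhabited K] in
theorem ini_of_fin {x : K} (h : #(Iio x) < ℵ₀) : Ini x := by
  intro y hy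
  have hf : (Iio x).Finite := lt_aleph0_iff_set_finite.1 h
  have h1 : Iio y ⊂ Iio x := Iio_ssubset_Iio_iff.2 hy
  have hfy : (Iio y).Finite := hf.subset h1.subset
  have e1 : #(Iio x) = ((Iio x).ncard : Cardinal.{0}) := (Set.cast_ncard hf).symm
  have e2 : #(Iio y) = ((Iio y).ncard : Cardinal.{0}) := (Set.cast_ncard hfy).symm
  rw [e1, e2]
  exact Nat.cast_lt.2 (Set.ncard_lt_ncard h1 hf)

omit [Inhabited K] in
theorem exists_om {w : K} (h : #(Iio w) = ℵ₀) (hw : Ini w) :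
    ∃ e : ℕ → K, StrictMono e ∧ ∀ x, x < w ↔ ∃ n, e n = x := by
  have h1 : ∀ n : ℕ, ∃ o < w, #(Iio o) = (n : Cardinal.{0}) ∧ Ini o := fun n =>
    exists_card_eq (by
      rw [h]
      exact natCast_lt_aleph0)
  choose e he1 he2 he3 using h1
  refine ⟨e, fun m n hmn => lt_of_card ?_, fun x => ⟨fun hx => ?_, ?_⟩⟩
  · rw [he2, he2]
    exact Nat.cast_lt.2 hmn
  · have hx' : #(Iio x) < ℵ₀ := h ▸ hw x hx
    obtain ⟨n, hn⟩ := lt_aleph0.1 hx'
    exact ⟨n, ini_eq (he3 n) (ini_of_fin hx') (by rw [he2, hn])⟩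
  · rintro ⟨n, rfl⟩
    exact he1 n

/-! ### bounding -/

theorem bd_of {s r L : K} (hs : InS s) (hr : IsSuc s r) : Bd (Pt L) r := by
  classical
  intro v hv f hf p hp
  have hreg : IsReg r := hr.reg hs.inf
  obtain ⟨⟨em, hem⟩⟩ := Cardinal.le_def _ _ |>.1 (hr.lt_iff.1 hv)
  let E : K → Set (Set (Fa K)) := fun i => {t | ∀ j : Iio v, (em j : K) = i →
    ∃ h : t ∈ Dl L, ∃ c < r, f j c ⟨t, h⟩}
  obtain ⟨q, hq, hpq, Rec, h1, h2, h3⟩ := decide_S hs E p.2 (fun i hi u hu hpu => by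
    by_cases hex : ∃ j : Iio v, (em j : K) = i
    · obtain ⟨j, hj⟩ := hex
      obtain ⟨t, htu, c, hc, hft⟩ := hp j j.2 ⟨u, hu⟩ hpu
      refine ⟨t.1, ?_, t.2, htu⟩
      intro j' hj'
      have : j' = j := hem (Subtype.ext (hj'.trans hj.symm))
      subst this
      exact ⟨t.2, c, hc, hft⟩
    · exact ⟨u, fun j hj => absurd ⟨j, hj⟩ hex, hu, subset_rfl⟩)
  -- the values
  have h4 : ∀ (j : Iio v) (t : Set (Fa K)), ∃ c < r, t ∈ Rec (em j) →
      ∃ h : t ∈ Dl L, f j c ⟨t, h⟩ := by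
    intro j t
    by_cases ht : t ∈ Rec (em j)
    · obtain ⟨h5, _⟩ := h2 (em j) (em j).2 t ht
      obtain ⟨h6, c, hc, h7⟩ := h5 j rfl
      exact ⟨c, hc, fun _ => ⟨h6, h7⟩⟩
    · exact ⟨s, hr.lt, fun h => absurd h ht⟩
  choose C hC1 hC2 using h4
  obtain ⟨z, hz, hzC⟩ := hreg.bdd (X := ⋃ j ∈ (univ : Set (Iio v)), C j '' Rec (em j)) (by
    refine sm_biUnion hreg.reg ?_ fun j _ => sm_image _ ((h1 _ (em j).2).trans (hreg.ini _ hr.lt))
    rw [mk_univ]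
    exact hreg.ini _ hv) (by
    intro y hy
    obtain ⟨j, _, t, _, rfl⟩ := mem_iUnion₂.1 hy
    exact hC1 j t)
  refine ⟨⟨q, hq⟩, hpq, z, hz, fun i hi u hqu => ?_⟩
  obtain ⟨t, ht, hut⟩ := h3 (em ⟨i, hi⟩) (em _).2 u.1 u.2 hqu
  obtain ⟨htL, hft⟩ := hC2 ⟨i, hi⟩ t ht
  refine ⟨⟨u.1 ∪ t, hut⟩, subset_union_left, C ⟨i, hi⟩ t, ?_, ?_⟩
  · exact hzC _ (mem_iUnion₂.2 ⟨⟨i, hi⟩, mem_univ _, t, ht, rfl⟩)
  · exact hf i _ ⟨t, htL⟩ ⟨u.1 ∪ t, hut⟩ subset_union_right hft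

/-! ### predicates and sets of conditions -/

/-- The set of conditions of a predicate. -/
def toS {L : K} (A : Pt L → Prop) : Set (Set (Fa K)) := {x | ∃ h : x ∈ Dl L, A ⟨x, h⟩}

theorem toS_ro {L : K} {A : Pt L → Prop} (h : RO A) : Ro L (toS A) where
  sub := fun x hx => hx.1
  up := fun x hx y hy hxy => ⟨hy, h.mono _ _ hxy hx.2⟩
  dense := fun x hx hd => ⟨hx, h.dense _ fun y hxy => by
    obtain ⟨t, ht, hyt⟩ := hd y.1 y.2 hxy
    exact ⟨⟨t, ht.1⟩, hyt, ht.2⟩⟩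

theorem toS_iv {L : K} {A : Pt L → Prop} (h : Iv (Ed K) A) : Ivs L (toS A) := fun w x hx =>
  ⟨Dl.ac hx.1, (h w ⟨x, hx.1⟩).2 hx.2⟩

theorem ofS_ro {L : K} {B : Set (Set (Fa K))} (h : Ro L B) : RO (fun x : Pt L => x.1 ∈ B) where
  mono := fun x y hxy hx => h.up x.1 hx y.1 y.2 hxy
  dense := fun x hd => h.dense x.1 x.2 fun y hy hxy => by
    obtain ⟨t, hyt, ht⟩ := hd ⟨y, hy⟩ hxy
    exact ⟨t.1, ht, hyt⟩

theorem ofS_iv {L : K} {B : Set (Set (Fa K))} (h : Ivs L B) :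
    Iv (Ed K) (fun x : Pt L => x.1 ∈ B) := fun w x => by
  refine ⟨fun hx => ?_, fun hx => h w _ hx⟩
  have h1 := h w _ hx
  rwa [Pt.smul_val, ac_ac] at h1

theorem toS_tr {mu L : K} {R : K → K → K → K → Pt L → Prop} {p : Pt L} (h : TreeF mu L R p) :
    Tr mu L (fun a i b k => toS (R a i b k)) p.1 where
  pred := fun a b hab hb k hk q hq hpq => by
    obtain ⟨r, hqr, i, hi, hr⟩ := h.pred a b hab hb k hk ⟨q, hq⟩ hpq
    exact ⟨r.1, r.2, hqr, i, hi, r.2, hr⟩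
  like := fun a b c hab hbc hc i hi j hj k hk q hq hpq h1 h2 =>
    ⟨hq, h.like a b c hab hbc hc i hi j hj k hk ⟨q, hq⟩ hpq h1.2 h2.2⟩
  trans := fun a b c hab hbc hc i hi j hj k hk q hq hpq h1 h2 =>
    ⟨hq, h.trans a b c hab hbc hc i hi j hj k hk ⟨q, hq⟩ hpq h1.2 h2.2⟩

theorem nsdata {mu L : K} (hs : InS mu) (hL : IsSuc mu L) (hlim : ∀ x < mu, ∃ s < mu, x < s ∧ InS s)
    (htp : TPV mu L) : ∃ w, NSData K (Ed K) (Pt L) w mu L := by
  classical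
  obtain ⟨w, hw, hw1, hw2⟩ := exists_card_eq hs.unc
  refine ⟨w, ⟨exists_om hw1 hw2, hw, hL.lt, hs.cof, fun a ha haL => ?_, bd_of hs hL,
    fun x hx => ?_, fun R hR hI p hp => ?_, ?_⟩⟩
  · -- everything between `mu` and `L` has the size of `mu`
    have h1 : #(Iio mu) = #(Iio a) := le_antisymm (card_mono ha) (hL.lt_iff.1 haL)
    obtain ⟨e⟩ := Cardinal.eq.1 h1
    refine ⟨fun x => if h : x < mu then (e ⟨x, h⟩ : K) else default, ?_, ?_, ?_⟩
    · intro x hx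
      have hx' : x < mu := hx
      simp only [hx', dite_true]
      exact (e ⟨x, hx⟩).2
    · intro x hx y hy hxy
      have hx' : x < mu := hx
      have hy' : y < mu := hy
      simp only [hx', hy', dite_true] at hxy
      have := e.injective (Subtype.ext hxy)
      exact congrArg (fun z : Iio mu => (z : K)) this
    · intro y hy
      refine ⟨(e.symm ⟨y, hy⟩ : Iio mu), (e.symm ⟨y, hy⟩).2, ?_⟩
      have h2 : ((e.symm ⟨y, hy⟩ : Iio mu) : K) < mu := (e.symm ⟨y, hy⟩).2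
      simp only [h2, dite_true]
      rw [Subtype.coe_eta, Equiv.apply_symm_apply]
  · -- many bounding cardinals below `mu`
    obtain ⟨s, hsm, hxs, hss⟩ := hlim x hx
    obtain ⟨r, hr, hr1, hr2⟩ := exists_card_eq (x := mu) (c := Order.succ #(Iio s))
      ((Order.succ_le_of_lt (cantor _)).trans_lt (hs.two hsm))
    have hsr : IsSuc s r := ⟨hr1, hr2⟩
    exact ⟨r, hr, hxs.trans hsr.lt, bd_of hss hsr⟩
  · -- the tree property
    obtain ⟨q, hq, hpq, b, hb, hBr⟩ := htp (fun a i b k => toS (R a i b k))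
      (fun a i b k => toS_ro (hR a i b k)) p.1 p.2 (toS_tr hp)
    obtain ⟨q', hq', hqq, b', hb1, hb2, hb3, hb4⟩ := exists_inv hs hL
      (fun a i c k => toS_iv (hI a i c k)) hb hq hBr
    refine ⟨⟨q', hq'⟩, hpq.trans hqq, fun a i x => x.1 ∈ b' a i, fun a i => ofS_ro (hb1 a i),
      fun a i => ofS_iv (hb2 a i), ⟨fun a ha r hr => ?_, fun a c hac hc i hi k hk r hr h1 h2 => ?_⟩⟩
    · obtain ⟨s, hs', hrs, i, hi, hsi⟩ := hb3 a ha r.1 r.2 hr
      exact ⟨⟨s, hs'⟩, hrs, i, hi, hsi⟩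
    · exact (hb4 a c hac hc i hi k hk r.1 r.2 hr h1 h2).2
  · -- the narrow system
    refine ⟨fun a b n x => x.1 ∈ cs L a b n, fun a b n => ofS_ro (cs_ro a b n),
      fun a b n => ofS_iv (cs_iv a b n), fun a b hab hb p => ?_,
      fun x y z n hxy _ _ p h1 h2 => cs_trans hxy h1 h2,
      fun x y z n hxy _ _ p h1 h2 => cs_like hxy h1 h2, fun n B hB hBi p hun hcl => ?_⟩
    · obtain ⟨q, hq, hpq, n, hn⟩ := cs_tot hs hL hab hb p.2
      exact ⟨⟨q, hq⟩, hpq, n, hn⟩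
    · refine cs_nobr hs hL n (fun a => toS (B a)) (fun a => toS_ro (hB a))
        (fun a => toS_iv (hBi a)) p.2 (fun x hx q hq hpq => ?_)
        fun a b hab hb q hq hpq h1 h2 => hcl a b hab hb ⟨q, hq⟩ hpq h1.2 h2.2
      obtain ⟨r, hqr, a, hxa, haL, hr⟩ := hun x hx ⟨q, hq⟩ hpq
      exact ⟨r.1, r.2, hqr, a, hxa, haL, r.2, hr⟩

end Pool.Agent.helper75.NS
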