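import Pool.Agent.helper15.NS.Ext1

/-!
# Vopěnka cardinals give extendible-like cardinals for an arbitrary structure
-/

open Cardinal

namespace Pool.Agent.helper75.NS

/-- `x` has no cofinal map from a smaller element. -/
def Rg {K : Type} [LinearOrder K] (x : K) : Prop :=
  ∀ t < x, ∀ f : K → K, (∀ i < t, f i < x) → ∃ y < x, ∀ i < t, f i < y

/-- `(j, e)` preserves all relations on elements of level at most `h`. -/
structure Emb {K U J : Type} [LinearOrder K] (lev : U → K) (S : J → List (K ⊕ U) → Prop) (h : K)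
    (j : K → K) (e : U → U) : Prop where
  mono : ∀ x y, y ≤ h → x < y → j x < j y
  lev_le : ∀ x y, y ≤ h → lev x ≤ y → lev (e x) ≤ j y
  rel : ∀ s l, (∀ x, Sum.inl x ∈ l → x ≤ h) → (∀ x, Sum.inr x ∈ l → lev x ≤ h) →
    (S s l ↔ S s (l.map (Sum.map j e)))

end Pool.Agent.helper75.NS

namespace Pool.Agent.helper15.NS

open Pool.Agent.helper75.NS

variable {K U : Type} [LinearOrder K] {lev : U → K} {g : K} {J : Type}
  {S : J → List (K ⊕ U) → Prop} {eta : K → K} {hJ : ∀ x : K, (ℕ → TT x) → TT x}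

/-- the conclusion for `k` and `h` -/
def PP (lev : U → K) (S : J → List (K ⊕ U) → Prop) (k h : K) : Prop :=
  ∃ (j : K → K) (e : U → U), Emb lev S h j e ∧
      (∀ x < k, j x = x) ∧ h < j k ∧
      ∀ t < k, ∀ f : K → K, (∀ i < t, f i ≤ h) → ∀ x ≤ h, (∀ y < x, ∃ i < t, y ≤ f i) →
        ∀ y < j x, ∃ i < t, y ≤ j (f i)

theorem PP_of_lt {k h : K} (hk : h < k) : PP lev S k h := by
  refine ⟨id, id, ⟨fun x y _ h => h, fun x y _ h => h, fun s l _ _ => ?_⟩, fun x _ => rfl, hk, ?_⟩
  · simp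
  · intro t _ f _ x _ hc
    exact hc

/-- closed elements of countable cofinality -/
def Good (eta : K → K) (g a : K) : Prop :=
  g < a ∧ (∀ x < a, eta x < a) ∧ ∃ κ : ℕ → K, (∀ n, κ n < a) ∧ ∀ y < a, ∃ n, y ≤ κ n

theorem Good_unbounded {Om : Cardinal.{0}} (hO : Om.IsInaccessible) [WellFoundedLT K]
    (hK : Ordinal.type (fun x y : K => x < y) = Om.ord) (eta : K → K) (g b : K) :
    ∃ a, Good eta g a ∧ b < a := by
  have h1 : ∀ x : K, ∃ c, x < c ∧ ∀ y ≤ x, eta y < c := by
    intro x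
    have hx := mk_Iic_lt hO hK x
    obtain ⟨c, hc⟩ := bounded hO hK (sum_lt hO hx hx)
      (Sum.elim (fun y : {y : K // y ≤ x} => eta y.1) (fun y : {y : K // y ≤ x} => y.1))
    exact ⟨c, hc (Sum.inr ⟨x, le_rfl⟩), fun y hy => hc (Sum.inl ⟨y, hy⟩)⟩
  choose c hc1 hc2 using h1
  set κ : ℕ → K := fun n => c^[n] (c (max g b)) with hκ
  have hs : ∀ n, κ (n + 1) = c (κ n) := fun n => Function.iterate_succ_apply' c n _
  obtain ⟨B, hB⟩ := bounded hO hK (nat_lt hO) κ
  set P : Set K := {x | ∀ n, κ n < x} with hP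
  have hne : P.Nonempty := ⟨B, hB⟩
  set a := (wellFounded_lt (α := K)).min P hne with ha
  have h2 : ∀ n, κ n < a := (wellFounded_lt (α := K)).min_mem P hne
  have h3 : ∀ y < a, ∃ n, y ≤ κ n := by
    intro y hy
    by_contra hcon
    push_neg at hcon
    exact (wellFounded_lt (α := K)).not_lt_min P hcon hy
  have h4 : max g b < a := (hc1 _).trans (h2 0)
  refine ⟨a, ⟨(le_max_left _ _).trans_lt h4, ?_, κ, h2, h3⟩, (le_max_right _ _).trans_lt h4⟩
  intro x hx
  obtain ⟨n, hn⟩ := h3 x hx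
  exact (hc2 (κ n) x hn).trans ((hs n) ▸ h2 (n + 1))

/-- properties of the iterates -/
structure Q (lev : U → K) (S : J → List (K ⊕ U) → Prop) (h0 k : K) (j : K → K) (e : U → U)
    (B : K) : Prop where
  mono : ∀ x y, y ≤ h0 → x < y → j x < j y
  le : ∀ x ≤ h0, j x ≤ B
  lev_le : ∀ x y, y ≤ h0 → lev x ≤ y → lev (e x) ≤ j y
  rel : ∀ s l, (∀ x, Sum.inl x ∈ l → x ≤ h0) → (∀ x, Sum.inr x ∈ l → lev x ≤ h0) →
    (S s l ↔ S s (l.map (Sum.map j e)))
  fix : ∀ x < k, j x = x
  cof : ∀ t < k, ∀ f : K → K, (∀ i < t, f i ≤ h0) → ∀ x ≤ h0, (∀ y < x, ∃ i < t, y ≤ f i) →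
        ∀ y < j x, ∃ i < t, y ≤ j (f i)

theorem Q_id (h0 k : K) : Q lev S h0 k id id h0 :=
  ⟨fun _ _ _ h => h, fun _ h => h, fun _ _ _ h => h, fun s l _ _ => by simp, fun _ _ => rfl,
    fun _ _ _ _ _ _ h => h⟩

theorem Q_comp {a b : K} {E : W K U → W K U} (h : Hyp lev g S eta hJ a b E) {h0 k B : K}
    {j : K → K} {e : U → U} (q : Q lev S h0 k j e B) (hB : B ≤ a) (hk : k ≤ a)
    (hfix : ∀ x < k, jf E x = x) : Q lev S h0 k (jf E ∘ j) (ef E ∘ e) (jf E B) where
  mono := fun x y hy hxy => h.jf_lt ((q.le y hy).trans hB) (q.mono x y hy hxy)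
  le := fun x hx => h.jf_le hB (q.le x hx)
  lev_le := fun x y hy hxy => h.lev_le ((q.le y hy).trans hB) (q.lev_le x y hy hxy)
  rel := by
    intro s l h1 h2
    rw [q.rel s l h1 h2, h.S_iff s]
    · rw [List.map_map, Sum.map_comp_map]
    · intro x hx
      obtain ⟨(y | u), hy, hyx⟩ := List.mem_map.1 hx
      · simp only [Sum.map_inl, Sum.inl.injEq] at hyx
        rw [← hyx]
        exact (q.le y (h1 y hy)).trans hB
      · simp at hyx
    · intro x hx
      obtain ⟨(y | u), hy, hyx⟩ := List.mem_map.1 hx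
      · simp at hyx
      · simp only [Sum.map_inr, Sum.inr.injEq] at hyx
        rw [← hyx]
        exact ((q.lev_le u h0 le_rfl (h2 u hy)).trans (q.le h0 le_rfl)).trans hB
  fix := fun x hx => by
    show jf E (j x) = x
    rw [q.fix x hx, hfix x hx]
  cof := by
    intro t ht f hf x hx hc
    have h1 := q.cof t ht f hf x hx hc
    exact h.cof (ht.le.trans hk) (fun i hi => hfix i (hi.trans_lt ht)) (f := fun i => j (f i))
      (fun i hi => (q.le _ (hf i hi)).trans hB) ((q.le x hx).trans hB) h1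

theorem final {a b : K} [WellFoundedLT K] {E : W K U → W K U} (h : Hyp lev g S eta hJ a b E)
    (hab : a ≠ b) (hga : Good eta g a)
    (hle : ∀ k, k ≤ eta k) (heta : ∀ k, g < k → Rg k → ¬ PP lev S k (eta k))
    (hjon : ∀ x (X : Set (TT x)), #X = #(TT x) → ∀ c, ∃ q : ℕ → TT x, (∀ n, q n ∈ X) ∧
      hJ x q = c) : False := by
  have hxj : ∀ x, x ≤ a → x ≤ jf E x := by
    intro x
    induction x using WellFoundedLT.induction with
    | ind x ih =>
      intro hx
      by_contra hcon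
      have h1 := not_le.1 hcon
      exact absurd (ih _ h1 (h1.le.trans hx)) (not_le.2 (h.jf_lt hx h1))
  have hjab : a < b := lt_of_le_of_ne (h.jf_top ▸ hxj a le_rfl) hab
  set P : Set K := {x | x ≤ a ∧ jf E x ≠ x} with hP
  have hne : P.Nonempty := ⟨a, le_rfl, by rw [h.jf_top]; exact hab.symm⟩
  set k := (wellFounded_lt (α := K)).min P hne with hk
  have hkP : k ≤ a ∧ jf E k ≠ k := (wellFounded_lt (α := K)).min_mem P hne
  have hfix : ∀ x < k, jf E x = x := by
    intro x hx
    by_contra hcon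
    exact (wellFounded_lt (α := K)).not_lt_min P (x := x) ⟨hx.le.trans hkP.1, hcon⟩ hx
  have hkj : k < jf E k := lt_of_le_of_ne (hxj k hkP.1) hkP.2.symm
  have hgk : g < k := by
    by_contra hcon
    exact hkP.2 (h.jf_cst (not_lt.1 hcon) hga.1.le)
  have hka : k < a := by
    refine lt_of_le_of_ne hkP.1 ?_
    intro hka
    obtain ⟨κ, h1, h2⟩ := hga.2.2
    obtain ⟨n, hn⟩ := h.sup (fun n => (h1 n).le) (le_refl a) h2 a (h.jf_top.symm ▸ hjab)
    rw [hfix (κ n) (by rw [hka]; exact h1 n)] at hn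
    exact absurd (h1 n) (not_lt.2 hn)
  have hRg : Rg k := by
    intro t ht f hf
    by_contra hcon
    push_neg at hcon
    obtain ⟨i, hi, hki⟩ := h.cof (ht.le.trans hkP.1) (fun i hi => hfix i (hi.trans_lt ht))
      (fun i hi => (hf i hi).le.trans hkP.1) hkP.1 hcon k hkj
    rw [hfix (f i) (hf i hi)] at hki
    exact absurd (hf i hi) (not_lt.2 hki)
  have hno := heta k hgk hRg
  have hetak : eta k < a := hga.2.1 k hka
  set κ : ℕ → K := fun n => (jf E)^[n] k with hκ
  have hs : ∀ n, κ (n + 1) = jf E (κ n) := fun n => Function.iterate_succ_apply' _ n _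
  by_cases hcase : ∀ n, κ n < a
  · -- Kunen
    have hinc : ∀ n, κ n < κ (n + 1) := by
      intro n
      induction n with
      | zero => rw [hs 0]; exact hkj
      | succ n ih =>
        have h5 := h.jf_lt (hcase (n + 1)).le ih
        calc κ (n + 1) = jf E (κ n) := hs n
          _ < jf E (κ (n + 1)) := h5
          _ = κ (n + 1 + 1) := (hs (n + 1)).symm
    set P' : Set K := {x | ∀ n, κ n ≤ x} with hP'
    have hne' : P'.Nonempty := ⟨a, fun n => (hcase n).le⟩
    set z := (wellFounded_lt (α := K)).min P' hne' with hz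
    have hz1 : ∀ n, κ n ≤ z := (wellFounded_lt (α := K)).min_mem P' hne'
    have hza : z ≤ a := by
      by_contra hcon
      exact (wellFounded_lt (α := K)).not_lt_min P' (x := a) (fun n => (hcase n).le)
        (not_le.1 hcon)
    have hz2 : ∀ y < z, ∃ n, y ≤ κ n := by
      intro y hy
      by_contra hcon
      push_neg at hcon
      exact (wellFounded_lt (α := K)).not_lt_min P' (x := y) (fun n => (hcon n).le) hy
    have hz3 : ∀ n, κ n < z := fun n => (hinc n).trans_le (hz1 (n + 1))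
    have hzfix : jf E z = z := by
      apply le_antisymm _ (hxj z hza)
      by_contra hcon
      obtain ⟨n, hn⟩ := h.sup (fun n => (hcase n).le) hza hz2 z (not_le.1 hcon)
      rw [← hs n] at hn
      exact absurd (hz3 (n + 1)) (not_lt.2 hn)
    have hran : ∀ y ≤ z, jf E y ≠ k := by
      intro y hy hyk
      rcases lt_or_ge y k with h1 | h1
      · rw [hfix y h1] at hyk
        exact absurd h1 (by rw [hyk]; exact lt_irrefl _)
      · have := h.jf_le (hy.trans hza) h1
        rw [hyk] at this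
        exact absurd hkj (not_lt.2 this)
    exact h.kunen hjon hza hzfix (hz3 0).le hran
  · push_neg at hcase
    classical
    set m := Nat.find hcase with hm
    have hm1 : a ≤ κ m := Nat.find_spec hcase
    have hm2 : ∀ i < m, κ i < a := fun i hi => not_le.1 (Nat.find_min hcase hi)
    have key : ∀ i ≤ m, Q lev S (eta k) k ((jf E)^[i]) ((ef E)^[i]) (eta (κ i)) := by
      intro i
      induction i with
      | zero => intro _; exact Q_id _ _
      | succ i ih =>
        intro hi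
        have h1 := ih (by omega)
        have h2 : κ i < a := hm2 i (by omega)
        have h3 : eta (κ i) < a := hga.2.1 _ h2
        have h4 := Q_comp h h1 h3.le hkP.1 hfix
        rw [← h.eta_eq h2.le h3.le, ← hs i] at h4
        rw [Function.iterate_succ', Function.iterate_succ']
        exact h4
    have q := key m le_rfl
    apply hno
    exact ⟨_, _, ⟨q.mono, q.lev_le, q.rel⟩, q.fix, hetak.trans_le hm1, q.cof⟩

theorem main {Om : Cardinal.{0}} (hV : Pool.Agent.helper74.HY.IsVopenka Om) [WellFoundedLT K]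
    (hK : Ordinal.type (fun x y : K => x < y) = Om.ord)
    (lev : U → K) (hsm : ∀ h, #{x : U // lev x ≤ h} < Om)
    (hJ : #J < Om) (S : J → List (K ⊕ U) → Prop) (g : K) :
    ∃ k > g, Rg k ∧ ∀ h, PP lev S k h := by
  classical
  by_contra hcon
  push_neg at hcon
  have hO := hV.1
  have hex : ∀ k, ∃ η, k ≤ η ∧ (g < k → Rg k → ¬ PP lev S k η) := by
    intro k
    by_cases h1 : g < k ∧ Rg k
    · obtain ⟨h, hh⟩ := hcon k h1.1 h1.2
      refine ⟨h, ?_, fun _ _ => hh⟩
      by_contra hc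
      exact hh (PP_of_lt (not_le.1 hc))
    · exact ⟨k, le_rfl, fun h2 h3 => absurd ⟨h2, h3⟩ h1⟩
  choose eta hle heta using hex
  have hjex : ∀ x : K, ∃ h : (ℕ → TT x) → TT x, ∀ X : Set (TT x), #X = #(TT x) → ∀ c,
      ∃ q : ℕ → TT x, (∀ n, q n ∈ X) ∧ h q = c := by
    intro x
    haveI : Nonempty {y : K // y ≤ x} := ⟨⟨x, le_rfl⟩⟩
    exact exists_jonsson _
  choose hj hjon using hjex
  obtain ⟨a, b, hab, e, he1, he2⟩ := vp_list hV
    (mk_unbounded hO hK (P := Good eta g) (Good_unbounded hO hK eta g))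
    (fun a => {w : W K U // ok lev g a.1 w}) (fun a => ⟨⟨.ord a.1, le_refl a.1⟩⟩)
    (fun a => ok_lt hO hK lev hsm g a.1) (Sch_lt hO hK hJ g)
    (fun s a l => R lev g S eta hj s a.1 (l.map Subtype.val))
  let E : W K U → W K U := fun w => if h : ok lev g a.1 w then (e ⟨w, h⟩).1 else w
  have hE : ∀ w (h : ok lev g a.1 w), E w = (e ⟨w, h⟩).1 := fun w h => dif_pos h
  have hyp : Hyp lev g S eta hj a.1 b.1 E := by
    refine ⟨?_, ?_, ?_⟩
    · intro w hw
      rw [hE w hw]
      exact (e ⟨w, hw⟩).2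
    · intro v w hv hw hvw
      rw [hE v hv, hE w hw] at hvw
      exact congrArg Subtype.val (he1 (Subtype.ext hvw))
    · intro s l hl
      have h1 := he2 s (l.pmap Subtype.mk hl)
      have h2 : (l.pmap Subtype.mk hl).map Subtype.val = l := by
        rw [List.map_pmap]
        simp
      have h3 : ((l.pmap Subtype.mk hl).map e).map Subtype.val = l.map E := by
        rw [List.map_pmap, List.map_pmap]
        rw [← List.pmap_eq_map (H := hl)]
        apply List.pmap_congr_left
        intro w hw h5 h6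
        exact (hE w h5).symm
      rw [h2, h3] at h1
      exact h1
  exact final hyp (fun h => hab (Subtype.ext h)) a.2 hle heta hjon

end Pool.Agent.helper15.NS

namespace Pool.Agent.helper75.NS

theorem exists_ext (Om : Cardinal.{0}) (hV : Pool.Agent.helper74.HY.IsVopenka Om) (K : Type)
    [LinearOrder K] [WellFoundedLT K] (hK : Ordinal.type (fun x y : K => x < y) = Om.ord)
    (U : Type) (lev : U → K) (hsm : ∀ h, #{x : U // lev x ≤ h} < Om)
    (J : Type) (hJ : #J < Om) (S : J → List (K ⊕ U) → Prop) (g : K) :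
    ∃ k > g, Rg k ∧ ∀ h, ∃ (j : K → K) (e : U → U), Emb lev S h j e ∧
      (∀ x < k, j x = x) ∧ h < j k ∧
      ∀ t < k, ∀ f : K → K, (∀ i < t, f i ≤ h) → ∀ x ≤ h, (∀ y < x, ∃ i < t, y ≤ f i) →
        ∀ y < j x, ∃ i < t, y ≤ j (f i) :=
  Pool.Agent.helper15.NS.main hV hK lev hsm hJ S g

end Pool.Agent.helper75.NS
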