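import Pool.Agent.helper15.NS.Jon

/-!
# The structures to which Vopěnka's principle is applied
-/

open Cardinal Ordinal

namespace Pool.Agent.helper15.NS

/-- the type `T` over the initial segment of `x` -/
abbrev TT {K : Type} [LinearOrder K] (x : K) : Type := T {y : K // y ≤ x}

/-- elements of the structures: ordinals, points, codes of sequences of ordinals, elements of `TT x`,
`ω`-sequences of elements of `TT x` -/
inductive W (K U : Type) [LinearOrder K] : Type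
  | ord : K → W K U
  | pt : U → W K U
  | seq : K → (K → K) → W K U
  | tt : (x : K) → TT x → W K U
  | qq : (x : K) → (ℕ → TT x) → W K U

section

variable {K U : Type} [LinearOrder K] (lev : U → K) (g : K)

/-- elements of the structure at `a` -/
def ok (a : K) : W K U → Prop
  | .ord x => x ≤ a
  | .pt u => lev u ≤ a
  | .seq t f => t ≤ a ∧ (∀ i < t, f i ≤ a) ∧ ∀ i, t ≤ i → f i = g
  | .tt x _ => x ≤ a
  | .qq x _ => x ≤ a

/-- points and ordinals -/
def inj : K ⊕ U → W K U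
  | .inl x => .ord x
  | .inr u => .pt u

theorem inj_injective : Function.Injective (inj : K ⊕ U → W K U) := by
  rintro (x | u) (y | v) h <;> simp [inj] at h <;> simp [h]

/-- the schemes -/
inductive Sch (K J : Type) [LinearOrder K] (g : K) : Type
  | isOrd | isPt | lt | top | lev | len | val | cof | eta | inT | img | isImg | inQ | cofQ | jon
  | cst (c : {c : K // c ≤ g})
  | rel (s : J)
  | qval (n : ℕ)

variable {J : Type} (S : J → List (K ⊕ U) → Prop) (eta : K → K)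
  (hJ : ∀ x : K, (ℕ → TT x) → TT x)

/-- interpretation of the schemes -/
def R : Sch K J g → K → List (W K U) → Prop
  | .isOrd, _, [v] => ∃ x, v = .ord x
  | .isPt, _, [v] => ∃ x, v = .pt x
  | .lt, _, [v, w] => ∃ x y, v = .ord x ∧ w = .ord y ∧ x < y
  | .top, a, [v] => v = .ord a
  | .lev, _, [v, w] => ∃ u x, v = .pt u ∧ w = .ord x ∧ lev u ≤ x
  | .len, _, [v, w] => ∃ t f, v = .seq t f ∧ w = .ord t
  | .val, _, [v, w, z] => ∃ t f i, v = .seq t f ∧ w = .ord i ∧ i < t ∧ z = .ord (f i)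
  | .cof, _, [v, w] => ∃ t f x, v = .seq t f ∧ w = .ord x ∧ ∀ y < x, ∃ i < t, y ≤ f i
  | .eta, _, [v, w] => ∃ x, v = .ord x ∧ w = .ord (eta x)
  | .inT, _, [v, w] => ∃ x τ, v = .tt x τ ∧ w = .ord x
  | .img, _, [v, w] => ∃ x y h, v = .tt x (base ⟨y, h⟩) ∧ w = .ord y
  | .isImg, _, [v] => ∃ x y h, v = .tt x (base ⟨y, h⟩)
  | .inQ, _, [v, w] => ∃ x q, v = .qq x q ∧ w = .ord x
  | .cofQ, _, [v, w] => ∃ x q z, v = .qq x q ∧ w = .ord z ∧
      ∀ y < z, ∃ n y' h, y ≤ y' ∧ q n = base ⟨y', h⟩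
  | .jon, _, [v, w] => ∃ x q, v = .qq x q ∧ w = .tt x (hJ x q)
  | .cst c, _, [v] => v = .ord c.1
  | .rel s, _, l => ∃ l' : List (K ⊕ U), l = l'.map inj ∧ S s l'
  | .qval n, _, [v, w] => ∃ x q, v = .qq x q ∧ w = .tt x (q n)
  | _, _, _ => False

end

section small

variable {Om : Cardinal.{0}} (hO : Om.IsInaccessible) {K : Type} [LinearOrder K]
  [WellFoundedLT K] (hK : Ordinal.type (fun x y : K => x < y) = Om.ord)

include hO hK

theorem TT_lt (x : K) : #(TT x) < Om := T_lt hO (mk_Iic_lt hO hK x)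

theorem Sch_lt {J : Type} (hJ : #J < Om) (g : K) : #(Sch K J g) < Om := by
  have h1 : #(Fin 15 ⊕ ({c : K // c ≤ g} ⊕ (J ⊕ ℕ))) < Om := by
    apply sum_lt hO
    · exact (Cardinal.lt_aleph0_of_finite _).trans hO.1
    · exact sum_lt hO (mk_Iic_lt hO hK g) (sum_lt hO hJ (nat_lt hO))
  let F : Sch K J g → Fin 15 ⊕ ({c : K // c ≤ g} ⊕ (J ⊕ ℕ)) := fun s => match s with
    | .isOrd => .inl 0 | .isPt => .inl 1 | .lt => .inl 2 | .top => .inl 3 | .lev => .inl 4
    | .len => .inl 5 | .val => .inl 6 | .cof => .inl 7 | .eta => .inl 8 | .inT => .inl 9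
    | .img => .inl 10 | .isImg => .inl 11 | .inQ => .inl 12 | .cofQ => .inl 13 | .jon => .inl 14
    | .cst c => .inr (.inl c)
    | .rel s => .inr (.inr (.inl s))
    | .qval n => .inr (.inr (.inr n))
  apply inj_lt hO F _ h1
  intro s t h
  cases s <;> cases t <;> simp [F] at h <;> first | rfl | (simp [h]) 

theorem ok_lt {U : Type} (lev : U → K) (hsm : ∀ h, #{x : U // lev x ≤ h} < Om) (g a : K) :
    #{w : W K U // ok lev g a w} < Om := by
  classical
  have hI := mk_Iic_lt hO hK a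
  have h1 : #({x : K // x ≤ a} ⊕ ({u : U // lev u ≤ a} ⊕
      (({x : K // x ≤ a} × ({x : K // x ≤ a} → {x : K // x ≤ a} ⊕ {x : K // x ≤ g})) ⊕
      ((Σ x : {x : K // x ≤ a}, TT x.1) ⊕ (Σ x : {x : K // x ≤ a}, (ℕ → TT x.1)))))) < Om := by
    refine sum_lt hO hI (sum_lt hO (hsm a) (sum_lt hO (prod_lt hO hI (fun_lt hO hI (sum_lt hO hI (mk_Iic_lt hO hK g)))) (sum_lt hO ?_ ?_)))
    · exact sigma_lt hO hI _ (fun x => TT_lt hO hK x.1)
    · exact sigma_lt hO hI _ (fun x => fun_lt hO (nat_lt hO) (TT_lt hO hK x.1))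
  let F : {w : W K U // ok lev g a w} → ({x : K // x ≤ a} ⊕ ({u : U // lev u ≤ a} ⊕
      (({x : K // x ≤ a} × ({x : K // x ≤ a} → {x : K // x ≤ a} ⊕ {x : K // x ≤ g})) ⊕
      ((Σ x : {x : K // x ≤ a}, TT x.1) ⊕ (Σ x : {x : K // x ≤ a}, (ℕ → TT x.1)))))) :=
    fun w => match w with
    | ⟨.ord x, h⟩ => .inl ⟨x, h⟩
    | ⟨.pt u, h⟩ => .inr (.inl ⟨u, h⟩)
    | ⟨.seq t f, h⟩ => .inr (.inr (.inl (⟨t, h.1⟩, fun i =>
        if hi : i.1 < t then .inl ⟨f i.1, h.2.1 i.1 hi⟩ else .inr ⟨g, le_refl g⟩)))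
    | ⟨.tt x τ, h⟩ => .inr (.inr (.inr (.inl ⟨⟨x, h⟩, τ⟩)))
    | ⟨.qq x q, h⟩ => .inr (.inr (.inr (.inr ⟨⟨x, h⟩, q⟩)))
  apply inj_lt hO F _ h1
  rintro ⟨v, hv⟩ ⟨w, hw⟩ h
  apply Subtype.ext
  cases v <;> cases w <;> simp only [F, Sum.inl.injEq, Sum.inr.injEq, Subtype.mk.injEq, reduceCtorEq, Prod.mk.injEq] at h
  · rename_i x y
    have h' : x = y := by first | exact h | exact Subtype.mk.inj h
    show W.ord x = W.ord y
    rw [h']
  · rename_i x y
    have h' : x = y := by first | exact h | exact Subtype.mk.inj h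
    show W.pt x = W.pt y
    rw [h']
  · rename_i t f t' f'
    obtain ⟨rfl, h2⟩ := h
    have hff : f = f' := by
     funext i
     by_cases hi : i < t
     · have := congrFun h2 ⟨i, hi.le.trans hv.1⟩
       simp only [hi, dif_pos] at this
       simpa using this
     · rw [hv.2.2 i (not_lt.1 hi), hw.2.2 i (not_lt.1 hi)]
    subst hff
    rfl
  · rename_i x τ x' τ'
    obtain ⟨h1, h2⟩ := Sigma.mk.inj h
    obtain rfl := congrArg Subtype.val h1
    simp [eq_of_heq h2]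
  · rename_i x τ x' τ'
    obtain ⟨h1, h2⟩ := Sigma.mk.inj h
    obtain rfl := congrArg Subtype.val h1
    simp [eq_of_heq h2]

end small

end Pool.Agent.helper15.NS
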