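import Pool.Agent.helper15.NS.Ext0

/-!
# Consequences of one embedding between the structures
-/

open Cardinal Ordinal

namespace Pool.Agent.helper15.NS

variable {K U : Type} [LinearOrder K] {lev : U → K} {g : K} {J : Type}
  {S : J → List (K ⊕ U) → Prop} {eta : K → K} {hJ : ∀ x : K, (ℕ → TT x) → TT x}

/-- an embedding of the structure at `a` into the structure at `b` -/
structure Hyp (lev : U → K) (g : K) (S : J → List (K ⊕ U) → Prop) (eta : K → K)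
    (hJ : ∀ x : K, (ℕ → TT x) → TT x) (a b : K) (E : W K U → W K U) : Prop where
  Hok : ∀ w, ok lev g a w → ok lev g b (E w)
  Hinj : ∀ v w, ok lev g a v → ok lev g a w → E v = E w → v = w
  H : ∀ s l, (∀ w ∈ l, ok lev g a w) → (R lev g S eta hJ s a l ↔ R lev g S eta hJ s b (l.map E))

/-- the map on ordinals -/
def jf (E : W K U → W K U) (x : K) : K :=
  match E (.ord x) with
  | .ord y => y
  | _ => x

/-- the map on points -/
def ef (E : W K U → W K U) (u : U) : U :=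
  match E (.pt u) with
  | .pt v => v
  | _ => u

namespace Hyp

variable {a b : K} {E : W K U → W K U} (h : Hyp lev g S eta hJ a b E)

include h

theorem H1 (s) (v : W K U) (hv : ok lev g a v) :
    R lev g S eta hJ s a [v] ↔ R lev g S eta hJ s b [E v] :=
  h.H s [v] (by simpa using hv)

theorem H2 (s) (v w : W K U) (hv : ok lev g a v) (hw : ok lev g a w) :
    R lev g S eta hJ s a [v, w] ↔ R lev g S eta hJ s b [E v, E w] :=
  h.H s [v, w] (by simp [hv, hw])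

theorem H3 (s) (v w z : W K U) (hv : ok lev g a v) (hw : ok lev g a w) (hz : ok lev g a z) :
    R lev g S eta hJ s a [v, w, z] ↔ R lev g S eta hJ s b [E v, E w, E z] :=
  h.H s [v, w, z] (by simp [hv, hw, hz])

theorem ord_eq {x : K} (hx : x ≤ a) : E (.ord x) = .ord (jf E x) := by
  obtain ⟨y, hy⟩ := (h.H1 .isOrd (.ord x) hx).1 ⟨x, rfl⟩
  simp [jf, hy]

theorem pt_eq {u : U} (hu : lev u ≤ a) : E (.pt u) = .pt (ef E u) := by
  obtain ⟨y, hy⟩ := (h.H1 .isPt (.pt u) hu).1 ⟨u, rfl⟩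
  simp [ef, hy]

theorem jf_lt {x y : K} (hy : y ≤ a) (hxy : x < y) : jf E x < jf E y := by
  obtain ⟨x', y', h1, h2, h3⟩ := (h.H2 .lt (.ord x) (.ord y) (hxy.le.trans hy) hy).1
    ⟨x, y, rfl, rfl, hxy⟩
  rw [h.ord_eq (hxy.le.trans hy)] at h1
  rw [h.ord_eq hy] at h2
  simp only [W.ord.injEq] at h1 h2
  rwa [h1, h2]

theorem jf_le {x y : K} (hy : y ≤ a) (hxy : x ≤ y) : jf E x ≤ jf E y := by
  rcases hxy.eq_or_lt with rfl | h1
  · exact le_rfl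
  · exact (h.jf_lt hy h1).le

theorem jf_le_b {x : K} (hx : x ≤ a) : jf E x ≤ b := by
  have := h.Hok (.ord x) hx
  rw [h.ord_eq hx] at this
  exact this

theorem jf_cst {c : K} (hc : c ≤ g) (hga : g ≤ a) : jf E c = c := by
  have := (h.H1 (.cst ⟨c, hc⟩) (.ord c) (hc.trans hga)).1 rfl
  rw [h.ord_eq (hc.trans hga)] at this
  exact W.ord.inj this

theorem jf_top : jf E a = b := by
  have := (h.H1 .top (.ord a) (le_refl a)).1 rfl
  rw [h.ord_eq le_rfl] at this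
  exact W.ord.inj this

theorem lev_le {u : U} {y : K} (hy : y ≤ a) (hu : lev u ≤ y) : lev (ef E u) ≤ jf E y := by
  obtain ⟨u', x', h1, h2, h3⟩ := (h.H2 .lev (.pt u) (.ord y) (hu.trans hy) hy).1
    ⟨u, y, rfl, rfl, hu⟩
  rw [h.pt_eq (hu.trans hy)] at h1
  rw [h.ord_eq hy] at h2
  simp only [W.ord.injEq, W.pt.injEq] at h1 h2
  rwa [h1, h2]

theorem S_iff (s : J) (l : List (K ⊕ U)) (h1 : ∀ x, Sum.inl x ∈ l → x ≤ a)
    (h2 : ∀ u, Sum.inr u ∈ l → lev u ≤ a) :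
    S s l ↔ S s (l.map (Sum.map (jf E) (ef E))) := by
  have key : ∀ (c : K) (l : List (K ⊕ U)), R lev g S eta hJ (.rel s) c (l.map inj) ↔ S s l := by
    intro c l
    constructor
    · rintro ⟨l', hl, hs⟩
      rwa [List.map_injective_iff.2 inj_injective hl]
    · intro hs
      exact ⟨l, rfl, hs⟩
  have hl : ∀ w ∈ l.map inj, ok lev g a w := by
    intro w hw
    obtain ⟨(x | u), hx, rfl⟩ := List.mem_map.1 hw
    · exact h1 x hx
    · exact h2 u hx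
  rw [← key a l, h.H _ _ hl, ← key b]
  have : (l.map inj).map E = (l.map (Sum.map (jf E) (ef E))).map inj := by
    rw [List.map_map, List.map_map]
    apply List.map_congr_left
    rintro (x | u) hx
    · exact h.ord_eq (h1 x hx)
    · exact h.pt_eq (h2 u hx)
  rw [this]

theorem eta_eq {x : K} (hx : x ≤ a) (hy : eta x ≤ a) : eta (jf E x) = jf E (eta x) := by
  obtain ⟨x', h1, h2⟩ := (h.H2 .eta (.ord x) (.ord (eta x)) hx hy).1 ⟨x, rfl, rfl⟩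
  rw [h.ord_eq hx] at h1
  rw [h.ord_eq hy] at h2
  simp only [W.ord.injEq] at h1 h2
  rw [h1, h2]

theorem cof {t : K} (ht : t ≤ a) (hid : ∀ i ≤ t, jf E i = i) {f : K → K} (hf : ∀ i < t, f i ≤ a)
    {x : K} (hx : x ≤ a) (hc : ∀ y < x, ∃ i < t, y ≤ f i) :
    ∀ y < jf E x, ∃ i < t, y ≤ jf E (f i) := by
  classical
  set f' : K → K := fun i => if i < t then f i else g with hf'
  have hok : ok lev g a (.seq t f') := by
    refine ⟨ht, fun i hi => ?_, fun i hi => ?_⟩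
    · simp [hf', hi, hf i hi]
    · simp [hf', not_lt.2 hi]
  obtain ⟨t1, f1, x1, h1, h2, h3⟩ := (h.H2 .cof (.seq t f') (.ord x) hok hx).1
    ⟨t, f', x, rfl, rfl, fun y hy => by
      obtain ⟨i, hi, hyi⟩ := hc y hy
      exact ⟨i, hi, by simpa [hf', hi] using hyi⟩⟩
  obtain ⟨t2, f2, h4, h5⟩ := (h.H2 .len (.seq t f') (.ord t) hok ht).1 ⟨t, f', rfl, rfl⟩
  rw [h.ord_eq ht, hid t le_rfl] at h5
  rw [h.ord_eq hx] at h2
  rw [h4] at h1
  simp only [W.seq.injEq, W.ord.injEq] at h1 h2 h5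
  obtain ⟨rfl, rfl⟩ := h1
  subst h5
  subst h2
  intro y hy
  obtain ⟨i, hi, hyi⟩ := h3 y hy
  refine ⟨i, hi, ?_⟩
  obtain ⟨t3, f3, i3, h6, h7, h8, h9⟩ := (h.H3 .val (.seq t f') (.ord i) (.ord (f i)) hok
    (hi.le.trans ht) (hf i hi)).1 ⟨t, f', i, rfl, rfl, hi, by simp [hf', hi]⟩
  rw [h4] at h6
  rw [h.ord_eq (hi.le.trans ht), hid i hi.le] at h7
  rw [h.ord_eq (hf i hi)] at h9
  simp only [W.seq.injEq, W.ord.injEq] at h6 h7 h9
  obtain ⟨rfl, rfl⟩ := h6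
  subst h7
  rwa [h9]

theorem tt_eq {x : K} (hx : x ≤ a) (τ : TT x) :
    ∃ (x' : K) (τ' : TT x'), x' = jf E x ∧ E (.tt x τ) = .tt x' τ' := by
  obtain ⟨x', τ', h1, h2⟩ := (h.H2 .inT (.tt x τ) (.ord x) hx hx).1 ⟨x, τ, rfl, rfl⟩
  rw [h.ord_eq hx] at h2
  exact ⟨x', τ', (W.ord.inj h2).symm, h1⟩

theorem img_eq {x y : K} (hx : x ≤ a) (hy : y ≤ x) :
    ∃ (x' : K) (hh : jf E y ≤ x'), x' = jf E x ∧
      E (.tt x (base ⟨y, hy⟩)) = .tt x' (base ⟨jf E y, hh⟩) := by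
  obtain ⟨x', y', h', h1, h2⟩ := (h.H2 .img (.tt x (base ⟨y, hy⟩)) (.ord y) hx (hy.trans hx)).1
    ⟨x, y, hy, rfl, rfl⟩
  obtain ⟨x'', τ, h3, h4⟩ := h.tt_eq hx (base ⟨y, hy⟩)
  rw [h.ord_eq (hy.trans hx)] at h2
  obtain rfl := (W.ord.inj h2)
  rw [h1] at h4
  have h5 : x' = x'' := by simp only [W.tt.injEq] at h4; exact h4.1
  exact ⟨x', h', h5.trans h3, h1⟩

theorem qq_eq {x : K} (hx : x ≤ a) (q : ℕ → TT x) :
    ∃ (x' : K) (q' : ℕ → TT x'), x' = jf E x ∧ E (.qq x q) = .qq x' q' ∧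
      ∀ n, E (.tt x (q n)) = .tt x' (q' n) := by
  obtain ⟨x', q', h1, h2⟩ := (h.H2 .inQ (.qq x q) (.ord x) hx hx).1 ⟨x, q, rfl, rfl⟩
  rw [h.ord_eq hx] at h2
  refine ⟨x', q', (W.ord.inj h2).symm, h1, fun n => ?_⟩
  obtain ⟨x'', q'', h3, h4⟩ := (h.H2 (.qval n) (.qq x q) (.tt x (q n)) hx hx).1 ⟨x, q, rfl, rfl⟩
  rw [h1] at h3
  obtain ⟨rfl, h5⟩ := W.qq.inj h3
  obtain rfl := eq_of_heq h5
  exact h4

theorem sup {κ : ℕ → K} (hκ : ∀ n, κ n ≤ a) {z : K} (hz : z ≤ a) (hc : ∀ y < z, ∃ n, y ≤ κ n) :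
    ∀ y < jf E z, ∃ n, y ≤ jf E (κ n) := by
  set q : ℕ → TT a := fun n => base ⟨κ n, hκ n⟩ with hq
  obtain ⟨x', q', h1, h2, h3⟩ := h.qq_eq (le_refl a) q
  obtain ⟨x1, q1, z1, h4, h5, h6⟩ := (h.H2 .cofQ (.qq a q) (.ord z) (le_refl a) hz).1
    ⟨a, q, z, rfl, rfl, fun y hy => by
      obtain ⟨n, hn⟩ := hc y hy
      exact ⟨n, κ n, hκ n, hn, rfl⟩⟩
  rw [h2] at h4
  rw [h.ord_eq hz] at h5
  obtain rfl := W.ord.inj h5
  obtain ⟨rfl, h7⟩ := W.qq.inj h4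
  obtain rfl := eq_of_heq h7
  intro y hy
  obtain ⟨n, y', hy', hyy, hqn⟩ := h6 y hy
  refine ⟨n, ?_⟩
  obtain ⟨x'', hh, h8, h9⟩ := h.img_eq (le_refl a) (hκ n)
  have h10 := h3 n
  simp only [hq] at h10
  rw [h9, hqn] at h10
  obtain ⟨rfl, h11⟩ := W.tt.inj h10
  have h12 := base_inj (eq_of_heq h11)
  have h13 := congrArg Subtype.val h12
  simp only at h13
  rw [h13]
  exact hyy

theorem kunen (hjon : ∀ x (X : Set (TT x)), #X = #(TT x) → ∀ c, ∃ q : ℕ → TT x, (∀ n, q n ∈ X) ∧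
    hJ x q = c) {z k : K} (hz : z ≤ a) (hfix : jf E z = z) (hk : k ≤ z)
    (hran : ∀ y ≤ z, jf E y ≠ k) : False := by
  have h1 : ∀ τ : TT z, ∃ τ' : TT z, E (.tt z τ) = .tt z τ' := by
    intro τ
    obtain ⟨x', τ', h2, h3⟩ := h.tt_eq hz τ
    rw [hfix] at h2
    subst h2
    exact ⟨τ', h3⟩
  choose ε hε using h1
  have hεi : Function.Injective ε := by
    intro σ τ hστ
    have h2 : E (.tt z σ) = E (.tt z τ) := by rw [hε, hε, hστ]
    have h3 := h.Hinj (.tt z σ) (.tt z τ) hz hz h2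
    exact eq_of_heq (W.tt.inj h3).2
  obtain ⟨q, hq1, hq2⟩ := hjon z (Set.range ε) (Cardinal.mk_range_eq ε hεi) (base ⟨k, hk⟩)
  choose q0 hq0 using hq1
  obtain ⟨x', q1, h2, h3, h4⟩ := h.qq_eq hz q0
  rw [hfix] at h2
  subst h2
  have h5 : q1 = q := by
    funext n
    have := h4 n
    rw [hε, hq0 n] at this
    exact (eq_of_heq (W.tt.inj this).2).symm
  subst h5
  obtain ⟨x2, q2, h6, h7⟩ := (h.H2 .jon (.qq x' q0) (.tt x' (hJ x' q0)) hz hz).1 ⟨x', q0, rfl, rfl⟩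
  rw [h3] at h6
  obtain ⟨rfl, h8⟩ := W.qq.inj h6
  obtain rfl := eq_of_heq h8
  rw [hq2] at h7
  have h9 : R lev g S eta hJ .isImg b [E (.tt x' (hJ x' q0))] := ⟨x', k, hk, h7⟩
  obtain ⟨x3, y3, h10, h11⟩ := (h.H1 .isImg (.tt x' (hJ x' q0)) hz).2 h9
  obtain ⟨rfl, h12⟩ := W.tt.inj h11
  rw [eq_of_heq h12] at h7
  obtain ⟨x4, h13, h14, h15⟩ := h.img_eq hz h10
  rw [h7] at h15
  obtain ⟨rfl, h16⟩ := W.tt.inj h15
  have h17 := congrArg Subtype.val (base_inj (eq_of_heq h16))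
  exact hran y3 h10 h17.symm

end Hyp

end Pool.Agent.helper15.NS
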