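import Pool.Agent.helper15.NS.VP

/-!
# Small types and Jónsson functions on `ω`-iterated power sets
-/

open Cardinal Ordinal

namespace Pool.Agent.helper15.NS

/-- iterated power sets -/
def Z (B : Type) : ℕ → Type
  | 0 => B
  | n + 1 => Set (Z B n)

/-- the disjoint union of the iterated power sets -/
def T (B : Type) : Type := Σ n, Z B n

/-- elements of the base -/
def base {B : Type} (b : B) : T B := Sigma.mk (β := Z B) 0 b

/-- elements of a successor level -/
def nxt {B : Type} (n : ℕ) (A : Set (Z B n)) : T B := Sigma.mk (β := Z B) (n + 1) A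

/-- elements of a level -/
def lvl {B : Type} (n : ℕ) (z : Z B n) : T B := Sigma.mk (β := Z B) n z

theorem base_inj {B : Type} {b c : B} (h : base b = base c) : b = c :=
  eq_of_heq (Sigma.mk.inj h).2

theorem nxt_inj {B : Type} {n : ℕ} {A C : Set (Z B n)} (h : nxt n A = nxt n C) : A = C :=
  eq_of_heq (Sigma.mk.inj h).2

section small

variable {Om : Cardinal.{0}} (hO : Om.IsInaccessible)

include hO

theorem set_lt {A : Type} (hA : #A < Om) : #(Set A) < Om := by
  rw [Cardinal.mk_set]
  exact hO.isStrongLimit.two_power_lt hA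

theorem prod_lt {A B : Type} (hA : #A < Om) (hB : #B < Om) : #(A × B) < Om := by
  rw [Cardinal.mk_prod, Cardinal.lift_id, Cardinal.lift_id]
  exact Cardinal.mul_lt_of_lt hO.1.le hA hB

theorem sum_lt {A B : Type} (hA : #A < Om) (hB : #B < Om) : #(A ⊕ B) < Om := by
  rw [Cardinal.mk_sum, Cardinal.lift_id, Cardinal.lift_id]
  exact Cardinal.add_lt_of_lt hO.1.le hA hB

theorem inj_lt {A B : Type} (f : A → B) (hf : Function.Injective f) (hB : #B < Om) : #A < Om :=
  (Cardinal.mk_le_of_injective hf).trans_lt hB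

theorem fun_lt {A B : Type} (hA : #A < Om) (hB : #B < Om) : #(A → B) < Om := by
  apply inj_lt hO (fun f : A → B => ({p | f p.1 = p.2} : Set (A × B))) _ (set_lt hO (prod_lt hO hA hB))
  intro f g h
  funext x
  have h1 : ({p | f p.1 = p.2} : Set (A × B)) = ({p | g p.1 = p.2} : Set (A × B)) := h
  have : (x, f x) ∈ ({p | g p.1 = p.2} : Set (A × B)) := by
    rw [← h1]; simp
  exact this.symm

theorem nat_lt : #ℕ < Om := by
  rw [Cardinal.mk_nat]; exact hO.1

theorem sigma_lt {A : Type} (hA : #A < Om) (B : A → Type) (hB : ∀ a, #(B a) < Om) :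
    #(Σ a, B a) < Om := by
  rw [Cardinal.mk_sigma]
  exact Cardinal.sum_lt_of_isRegular hO.isRegular hA hB

theorem Z_lt {B : Type} (hB : #B < Om) : ∀ n, #(Z B n) < Om
  | 0 => hB
  | n + 1 => set_lt hO (Z_lt hB n)

theorem T_lt {B : Type} (hB : #B < Om) : #(T B) < Om :=
  sigma_lt hO (nat_lt hO) _ (Z_lt hO hB)

end small

/-- injective choice from a family of large sets -/
theorem exists_inj_choice {P α : Type} (A : P → Set α) (hA : ∀ p, #P ≤ #(A p)) :
    ∃ f : P → α, Function.Injective f ∧ ∀ p, f p ∈ A p := by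
  classical
  obtain ⟨r, wo, hr⟩ := Cardinal.ord_eq P
  have key : ∀ p (ih : ∀ q, r q p → α), ∃ y, y ∈ A p ∧ ∀ q h, ih q h ≠ y := by
    intro p ih
    by_contra hcon
    push_neg at hcon
    have h1 : #(A p) ≤ #{q // r q p} := by
      choose F hF1 hF2 using hcon
      refine ⟨⟨fun y => ⟨F y.1 y.2, hF1 y.1 y.2⟩, ?_⟩⟩
      intro y z h
      have h2 : F y.1 y.2 = F z.1 z.2 := congrArg Subtype.val h
      apply Subtype.ext
      rw [← hF2 y.1 y.2, ← hF2 z.1 z.2]
      congr 1
    have h2 : #{q // r q p} < #P := by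
      have := Cardinal.card_typein_lt (r := r) p hr
      simpa using this
    exact absurd (hA p) (not_le.2 (h1.trans_lt h2))
  let f : P → α := wo.wf.fix (fun p ih => Classical.choose (key p ih))
  have hf : ∀ p, f p = Classical.choose (key p (fun q _ => f q)) := by
    intro p
    exact wo.wf.fix_eq _ p
  have hf1 : ∀ p, f p ∈ A p := by
    intro p
    rw [hf p]
    exact (Classical.choose_spec (key p (fun q _ => f q))).1
  have hf2 : ∀ p q, r q p → f q ≠ f p := by
    intro p q h
    rw [hf p]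
    exact (Classical.choose_spec (key p (fun q _ => f q))).2 q h
  refine ⟨f, ?_, hf1⟩
  intro p q h
  rcases trichotomous_of r p q with h1 | h1 | h1
  · exact absurd h (hf2 q p h1)
  · exact h1
  · exact absurd h.symm (hf2 p q h1)

theorem Z_nonempty (B : Type) [Nonempty B] : ∀ n, Nonempty (Z B n)
  | 0 => by unfold Z; infer_instance
  | n + 1 => ⟨(∅ : Set (Z B n))⟩

theorem T_infinite (B : Type) [Nonempty B] : Infinite (T B) := by
  have h := Z_nonempty B
  apply Infinite.of_injective (fun n : ℕ => (⟨n, (h n).some⟩ : T B))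
  intro m n hmn
  exact congrArg Sigma.fst hmn

theorem two_pow_le (B : Type) : #(Set (T B)) ≤ #(ℕ → T B) := by
  apply Cardinal.mk_le_of_injective (f := fun A : Set (T B) => fun n =>
    nxt n ({z | lvl n z ∈ A} : Set (Z B n)))
  intro A A' h
  ext ⟨n, z⟩
  have h1 : ({z | lvl n z ∈ A} : Set (Z B n)) = ({z | lvl n z ∈ A'} : Set (Z B n)) :=
    nxt_inj (congrFun h n)
  have h2 : z ∈ ({z | lvl n z ∈ A} : Set (Z B n)) ↔
    z ∈ ({z | lvl n z ∈ A'} : Set (Z B n)) := by rw [h1]
  exact h2

theorem exists_jonsson (B : Type) [Nonempty B] :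
    ∃ h : (ℕ → T B) → T B, ∀ X : Set (T B), #X = #(T B) → ∀ c, ∃ q : ℕ → T B,
      (∀ n, q n ∈ X) ∧ h q = c := by
  classical
  haveI := T_infinite B
  let P : Type := {X : Set (T B) // #X = #(T B)} × T B
  let A : P → Set (ℕ → T B) := fun p => {q | ∀ n, q n ∈ p.1.1}
  have hA : ∀ p, #P ≤ #(A p) := by
    intro p
    have h1 : #(A p) = #(ℕ → p.1.1) := by
      apply Cardinal.mk_congr
      exact { toFun := fun q n => ⟨q.1 n, q.2 n⟩
              invFun := fun q => ⟨fun n => (q n).1, fun n => (q n).2⟩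
              left_inv := fun q => rfl
              right_inv := fun q => rfl }
    have h2 : #(ℕ → p.1.1) = #(ℕ → T B) := by
      rw [← Cardinal.power_def, ← Cardinal.power_def, p.1.2]
    rw [h1, h2]
    refine le_trans ?_ (two_pow_le B)
    have h3 : #P ≤ #(Set (T B)) * #(Set (T B)) := by
      have : #P = #{X : Set (T B) // #X = #(T B)} * #(T B) := by
        rw [Cardinal.mk_prod, Cardinal.lift_id, Cardinal.lift_id]
      rw [this]
      apply mul_le_mul'
      · exact Cardinal.mk_subtype_le _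
      · rw [Cardinal.mk_set]; exact (Cardinal.cantor _).le
    rw [Cardinal.mul_eq_self] at h3
    · exact h3
    · exact Cardinal.aleph0_le_mk _
  obtain ⟨f, hf1, hf2⟩ := exists_inj_choice A hA
  refine ⟨fun q => if hq : ∃ p, f p = q then (Classical.choose hq).2 else base (Classical.arbitrary B), ?_⟩
  intro X hX c
  refine ⟨f (⟨X, hX⟩, c), hf2 (⟨X, hX⟩, c), ?_⟩
  have hq : ∃ p, f p = f (⟨X, hX⟩, c) := ⟨_, rfl⟩
  have h0 : (if hq : ∃ p, f p = f (⟨X, hX⟩, c) then (Classical.choose hq).2 else
    base (Classical.arbitrary B)) = (Classical.choose hq).2 := dif_pos hq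
  refine h0.trans ?_
  have := hf1 (Classical.choose_spec hq)
  rw [this]

end Pool.Agent.helper15.NS
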