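import Pool.Agent.helper74.HYStmt

/-!
# Vopěnka cardinals: list form of Vopěnka's principle, and basic facts on a well-order of type `κ`
-/

open Cardinal Ordinal

namespace Pool.Agent.helper15.NS

open Pool.Agent.helper74.HY

/-- language with relation symbols `J` in every arity -/
def LJ (J : Type) : FirstOrder.Language.{0, 0} := ⟨fun _ => Empty, fun _ => J⟩

theorem LJ_card {Om : Cardinal.{0}} (hO : ℵ₀ < Om) (J : Type) (hJ : #J < Om) :
    (LJ J).card < Om := by
  have h1 : (LJ J).card = #((Σ _ : ℕ, Empty) ⊕ (Σ _ : ℕ, J)) := rfl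
  rw [h1]
  have h2 : #((Σ _ : ℕ, Empty) ⊕ (Σ _ : ℕ, J)) = #(ℕ × J) := by
    apply Cardinal.mk_congr
    haveI : IsEmpty (Σ _ : ℕ, Empty) := ⟨fun x => x.2.elim⟩
    exact (Equiv.emptySum _ _).trans (Equiv.sigmaEquivProd ℕ J)
  rw [h2, Cardinal.mk_prod]
  simp only [Cardinal.lift_id, Cardinal.mk_eq_aleph0]
  exact Cardinal.mul_lt_of_lt hO.le hO hJ

theorem vp_list {Om : Cardinal.{0}} (hV : IsVopenka Om) {ι : Type} (hι : #ι = Om) (D : ι → Type)
    (hne : ∀ a, Nonempty (D a)) (hD : ∀ a, #(D a) < Om) {J : Type} (hJ : #J < Om)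
    (S : J → ∀ a, List (D a) → Prop) :
    ∃ a b, a ≠ b ∧ ∃ e : D a → D b, Function.Injective e ∧
      ∀ s l, S s a l ↔ S s b (l.map e) := by
  letI st : ∀ a, (LJ J).Structure (D a) := fun a =>
    { funMap := fun f => f.elim
      RelMap := fun {n} (r : J) v => S r a (List.ofFn v) }
  obtain ⟨a, b, hab, ⟨φ⟩⟩ := hV.2 (LJ J) (LJ_card hV.1.1 J hJ) ι hι D hne hD
  refine ⟨a, b, hab, φ, φ.injective, fun s l => ?_⟩
  have := φ.map_rel (n := l.length) (show (LJ J).Relations l.length from s) l.get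
  change S s b (List.ofFn (φ ∘ l.get)) ↔ S s a (List.ofFn l.get) at this
  rw [List.ofFn_get] at this
  rw [← this]
  have h2 : List.ofFn (φ ∘ l.get) = l.map φ := by
    rw [← List.map_ofFn, List.ofFn_get]
  rw [h2]

section K

variable {Om : Cardinal.{0}} (hO : Om.IsInaccessible) {K : Type} [LinearOrder K]
  [WellFoundedLT K] (hK : Ordinal.type (fun x y : K => x < y) = Om.ord)

include hO hK

theorem mk_Iio_lt (a : K) : #{x : K // x < a} < Om := by
  have h := Ordinal.typein_lt_type (fun x y : K => x < y) a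
  rw [hK, Cardinal.lt_ord] at h
  exact h

theorem mk_Iic_lt (a : K) : #{x : K // x ≤ a} < Om := by
  have h1 : #{x : K // x ≤ a} ≤ #{x : K // x < a} + 1 := by
    rw [← Cardinal.mk_option]
    classical
    refine ⟨⟨fun x => if h : x.1 < a then some ⟨x.1, h⟩ else none, ?_⟩⟩
    rintro ⟨x, hx⟩ ⟨y, hy⟩ h
    simp only at h
    split_ifs at h with h1 h2 h2
    · simp at h; simpa using h
    · have e1 : x = a := le_antisymm hx (not_lt.1 h1)
      have e2 : y = a := le_antisymm hy (not_lt.1 h2)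
      simp [e1, e2]
  refine h1.trans_lt (Cardinal.add_lt_of_lt hO.1.le (mk_Iio_lt hO hK a) (Cardinal.one_lt_aleph0.trans hO.1))

theorem bounded {A : Type} (hA : #A < Om) (f : A → K) : ∃ b, ∀ x, f x < b := by
  by_contra hcon
  push_neg at hcon
  have h1 : (⨆ x, Ordinal.typein (fun x y : K => x < y) (f x) + 1) < Om.ord := by
    apply Cardinal.iSup_lt_ord_of_isRegular hO.isRegular hA
    intro x
    have h := Ordinal.typein_lt_type (fun x y : K => x < y) (f x)
    rw [hK] at h
    exact (Cardinal.isSuccLimit_ord hO.1.le).succ_lt h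
  rw [← hK] at h1
  set b := Ordinal.enum (fun x y : K => x < y) ⟨_, h1⟩ with hb
  obtain ⟨x, hx⟩ := hcon b
  have h2 : Ordinal.typein (fun x y : K => x < y) b ≤ Ordinal.typein (fun x y : K => x < y) (f x) :=
    (Ordinal.typein_le_typein (fun x y : K => x < y)).2 (not_lt.2 hx)
  rw [hb, Ordinal.typein_enum] at h2
  have h3 := Ordinal.le_iSup (fun x => Ordinal.typein (fun x y : K => x < y) (f x) + 1) x
  exact absurd (h3.trans h2) (by simp)

theorem mk_unbounded {P : K → Prop} (hP : ∀ b, ∃ a, P a ∧ b < a) : #{a : K // P a} = Om := by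
  apply le_antisymm
  · have h1 : #K = Om := by
      have := congrArg Ordinal.card hK
      rwa [Ordinal.card_type, Cardinal.card_ord] at this
    rw [← h1]
    exact Cardinal.mk_subtype_le _
  · by_contra hcon
    obtain ⟨b, hb⟩ := bounded hO hK (not_le.1 hcon) (fun x : {a : K // P a} => x.1)
    obtain ⟨a, ha, hab⟩ := hP b
    exact absurd (hb ⟨a, ha⟩) (not_lt.2 hab.le)

end K

end Pool.Agent.helper15.NS
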